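import Pool.Agent.W424.KI.Stm

/-! KI-VA: the bound in the dislocated annuli, and U3. -/

set_option autoImplicit false

namespace Pool.Agent.W737.KI
open H974 H906.Cyl
open Pool.Agent.H160R2.ML (nm)
open Pool.Agent.W801.OU
open Pool.Agent.W424.KI

namespace VAaux

theorem vA_le_one (d R : ℕ) : vA d R ≤ 1 :=
  Pr_le_one (fun _ => by norm_num) _ _

theorem AnS_anti {d d' R : ℤ} (h : d ≤ d') : AnS d' R ⊆ AnS d R := by
  intro e he
  exact ⟨⟨h.trans he.1.1, h.trans he.1.2⟩, he.2⟩

theorem VA_mono {d d' R : ℤ} (h : d ≤ d') {G : Set Edg} (hG : VA d R G) : VA d' R G := by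
  obtain ⟨H, h1, h2⟩ := hG
  exact ⟨H, fun e he => h1 e (AnS_anti h he), h2⟩

theorem vA_mono {d d' R : ℕ} (h : d ≤ d') : vA d R ≤ vA d' R := by
  refine Pr_mono (fun _ => by norm_num) ?_
  intro F _ hF
  exact VA_mono (by exact_mod_cast h) hF

end VAaux

open VAaux

theorem t_VA (hR : S_RCI) : S_VA := by
  set e : ℝ := (2 / 3 : ℝ) with he
  have he0 : 0 < e := by rw [he]; norm_num
  have he1 : e ≤ 1 := by rw [he]; norm_num
  obtain ⟨L, hL, K, hK, r0, h⟩ := hR (1 / 2 * (4:ℝ) ^ (-e)) (by positivity)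
  obtain ⟨D, hD⟩ : ∃ D : ℕ, D = L * max r0 1 := ⟨_, rfl⟩
  have hD1 : 1 ≤ D := by
    rw [hD]; exact Nat.one_le_iff_ne_zero.2 (Nat.mul_ne_zero (by omega) (by have := le_max_right r0 1; omega))
  have hLD : L ≤ D := by
    rw [hD]; exact Nat.le_mul_of_pos_right _ (by have := le_max_right r0 1; omega)
  obtain ⟨C, hC⟩ : ∃ C : ℝ, C = 16 + 4 * K := ⟨_, rfl⟩
  have hC0 : 0 < C := by rw [hC]; positivity
  have hC1 : 1 ≤ C := by rw [hC]; linarith
  -- large d
  have key : ∀ n d R : ℕ, R - d = n → D ≤ d → d ≤ R → vA d R ≤ C * ((d : ℝ) / R) ^ e := by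
    intro n
    induction n using Nat.strong_induction_on with
    | _ n ih =>
      intro d R hn hDd hdR
      have hd0 : (0 : ℝ) < d := by exact_mod_cast (by omega : 0 < d)
      have hR0 : (0 : ℝ) < R := by exact_mod_cast (by omega : 0 < R)
      have hq0 : 0 < (d : ℝ) / R := by positivity
      by_cases hb : 16 * d ≤ R
      · obtain ⟨r, hr⟩ : ∃ r : ℕ, r = d / L + 1 := ⟨_, rfl⟩
        have h1 : d < L * r := by
          rw [hr]
          exact Nat.lt_mul_div_succ d (by omega)
        have h2 : L * r ≤ 2 * d := by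
          rw [hr, Nat.mul_add]
          have := Nat.mul_div_le d L
          omega
        have hr0 : r0 ≤ r := by
          have h3 : max r0 1 ≤ d / L := (Nat.le_div_iff_mul_le (by omega)).2 (by
            rw [Nat.mul_comm, ← hD]; exact hDd)
          have := le_max_left r0 1
          omega
        have hrd : r ≤ 2 * d := by
          refine le_trans ?_ h2
          exact Nat.le_mul_of_pos_left _ (by omega)
        have hs := h r R hr0 (by omega)
        have hm : vA d R ≤ vA (L * r) R := vA_mono h1.le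
        have hi := ih (R - 2 * (L * r)) (by omega) (2 * (L * r)) R rfl (by omega) (by omega)
        have hq : ((2 * (L * r) : ℕ) : ℝ) / R ≤ 4 * ((d : ℝ) / R) := by
          rw [← mul_div_assoc]
          apply div_le_div_of_nonneg_right _ hR0.le
          have : 2 * (L * r) ≤ 4 * d := by omega
          exact_mod_cast this
        have hq1 : (((2 * (L * r) : ℕ) : ℝ) / R) ^ e ≤ 4 ^ e * ((d : ℝ) / R) ^ e := by
          rw [← Real.mul_rpow (by norm_num) hq0.le]
          exact Real.rpow_le_rpow (by positivity) hq he0.le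
        have hp : ((r : ℝ) / R) ^ e ≤ 2 * ((d : ℝ) / R) ^ e := by
          have e1 : (r : ℝ) / R ≤ 2 * ((d : ℝ) / R) := by
            rw [← mul_div_assoc]
            apply div_le_div_of_nonneg_right _ hR0.le
            exact_mod_cast hrd
          calc ((r : ℝ) / R) ^ e ≤ (2 * ((d : ℝ) / R)) ^ e :=
                Real.rpow_le_rpow (by positivity) e1 he0.le
            _ = 2 ^ e * ((d : ℝ) / R) ^ e := Real.mul_rpow (by norm_num) hq0.le
            _ ≤ 2 * ((d : ℝ) / R) ^ e := by
                apply mul_le_mul_of_nonneg_right _ (Real.rpow_nonneg hq0.le _)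
                calc (2 : ℝ) ^ e ≤ 2 ^ (1 : ℝ) := Real.rpow_le_rpow_of_exponent_le (by norm_num) he1
                  _ = 2 := Real.rpow_one 2
        have hX : 0 ≤ ((d : ℝ) / R) ^ e := Real.rpow_nonneg hq0.le _
        have h44 : (4 : ℝ) ^ (-e) * 4 ^ e = 1 := by
          rw [← Real.rpow_add (by norm_num)]; simp
        have h4p : 0 < (4 : ℝ) ^ (-e) := Real.rpow_pos_of_pos (by norm_num) _
        calc vA d R ≤ vA (L * r) R := hm
          _ ≤ 1 / 2 * (4:ℝ) ^ (-e) * vA (2 * (L * r)) R + K * ((r : ℝ) / R) ^ e := hs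
          _ ≤ 1 / 2 * (4:ℝ) ^ (-e) * (C * (4 ^ e * ((d : ℝ) / R) ^ e)) +
                K * (2 * ((d : ℝ) / R) ^ e) := by
              apply add_le_add
              · apply mul_le_mul_of_nonneg_left _ (by positivity)
                exact hi.trans (mul_le_mul_of_nonneg_left hq1 hC0.le)
              · exact mul_le_mul_of_nonneg_left hp hK.le
          _ = (1 / 2 * C * ((4:ℝ) ^ (-e) * 4 ^ e) + 2 * K) * ((d : ℝ) / R) ^ e := by ring
          _ ≤ C * ((d : ℝ) / R) ^ e := by
              apply mul_le_mul_of_nonneg_right _ hX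
              rw [h44, hC]
              linarith
      · push Not at hb
        refine (vA_le_one d R).trans ?_
        have hq1 : 1 ≤ 16 * ((d : ℝ) / R) := by
          rw [← mul_div_assoc, one_le_div hR0]
          exact_mod_cast hb.le
        have hX : 1 ≤ 16 ^ e * ((d : ℝ) / R) ^ e := by
          rw [← Real.mul_rpow (by norm_num) hq0.le]
          exact Real.one_le_rpow hq1 he0.le
        refine hX.trans (mul_le_mul_of_nonneg_right ?_ (Real.rpow_nonneg hq0.le _))
        calc (16 : ℝ) ^ e ≤ 16 ^ (1 : ℝ) := Real.rpow_le_rpow_of_exponent_le (by norm_num) he1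
          _ = 16 := Real.rpow_one 16
          _ ≤ C := by rw [hC]; linarith
  -- all d
  have hDr : (1 : ℝ) ≤ D := by exact_mod_cast hD1
  have hDe : 1 ≤ (D : ℝ) ^ e := Real.one_le_rpow hDr he0.le
  refine ⟨C * (D : ℝ) ^ e, by positivity, ?_⟩
  intro d R hd hdR
  have hd0 : (0 : ℝ) < d := by exact_mod_cast (by omega : 0 < d)
  have hd1 : (1 : ℝ) ≤ d := by exact_mod_cast hd
  have hR0 : (0 : ℝ) < R := by exact_mod_cast (by omega : 0 < R)
  have hq0 : 0 < (d : ℝ) / R := by positivity
  have hX : 0 ≤ ((d : ℝ) / R) ^ e := Real.rpow_nonneg hq0.le _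
  by_cases hdD : D ≤ d
  · refine (key _ d R rfl hdD hdR).trans (mul_le_mul_of_nonneg_right ?_ hX)
    nlinarith
  · push Not at hdD
    have hdd : (D : ℝ) / R ≤ D * ((d : ℝ) / R) := by
      rw [← mul_div_assoc]
      apply div_le_div_of_nonneg_right _ hR0.le
      nlinarith
    by_cases hRD : D ≤ R
    · refine (vA_mono hdD.le).trans ((key _ D R rfl le_rfl hRD).trans ?_)
      rw [mul_assoc]
      apply mul_le_mul_of_nonneg_left _ hC0.le
      rw [← Real.mul_rpow (by positivity) hq0.le]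
      exact Real.rpow_le_rpow (by positivity) hdd he0.le
    · push Not at hRD
      refine (vA_le_one d R).trans ?_
      have h1 : 1 ≤ D * ((d : ℝ) / R) := by
        refine le_trans ?_ hdd
        rw [one_le_div hR0]
        exact_mod_cast hRD.le
      have h2 : 1 ≤ (D : ℝ) ^ e * ((d : ℝ) / R) ^ e := by
        rw [← Real.mul_rpow (by positivity) hq0.le]
        exact Real.one_le_rpow h1 he0.le
      rw [mul_assoc]
      nlinarith

theorem t_U3 (hV : S_VA) (hT : S_TRF) : S_U3 := by
  set e : ℝ := (2 / 3 : ℝ) with he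
  have he0 : 0 < e := by rw [he]; norm_num
  obtain ⟨C, hC, hV⟩ := hV
  obtain ⟨C', a, b, m, hC', ha, hb, hT⟩ := hT
  obtain ⟨M, hM⟩ : ∃ M : ℕ, M = m + a * b + 1 := ⟨_, rfl⟩
  obtain ⟨A, hA⟩ : ∃ A : ℝ, A = (M : ℝ) ^ e + C' * (C * (2 * a * b : ℝ) ^ e) := ⟨_, rfl⟩
  have hM0 : (0 : ℝ) < M := by exact_mod_cast (by omega : 0 < M)
  have hMe : 0 < (M : ℝ) ^ e := Real.rpow_pos_of_pos hM0 _
  have har : (0 : ℝ) < a := by exact_mod_cast (by omega : 0 < a)
  have hbr : (0 : ℝ) < b := by exact_mod_cast (by omega : 0 < b)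
  have hab : 0 < (2 * a * b : ℝ) ^ e := Real.rpow_pos_of_pos (by positivity) _
  refine ⟨A, by rw [hA]; positivity, ?_⟩
  intro c d k hd hdk S hS
  have hd0 : (0 : ℝ) < d := by exact_mod_cast (by omega : 0 < d)
  have hk0 : (0 : ℝ) < k := by exact_mod_cast (by omega : 0 < k)
  have hq0 : 0 < (d : ℝ) / k := by positivity
  have hX : 0 ≤ ((d : ℝ) / k) ^ e := Real.rpow_nonneg hq0.le _
  by_cases hbig : m * d ≤ k ∧ a * d ≤ k / b
  · obtain ⟨h1, h2⟩ := hbig
    have h3 := hT c d k hd h1 S hS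
    have had : 1 ≤ a * d := Nat.one_le_iff_ne_zero.2 (Nat.mul_ne_zero (by omega) (by omega))
    have h4 := hV (a * d) (k / b) had h2
    have hkb : 1 ≤ k / b := had.trans h2
    have hkbr : (0 : ℝ) < ((k / b : ℕ) : ℝ) := by exact_mod_cast (by omega : 0 < k / b)
    have h5 : k ≤ 2 * b * (k / b) := by
      have h6 := Nat.lt_mul_div_succ k (by omega : 0 < b)
      have h7 : b * (k / b + 1) ≤ 2 * b * (k / b) := by
        calc b * (k / b + 1) ≤ b * (2 * (k / b)) := Nat.mul_le_mul_left _ (by omega)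
          _ = 2 * b * (k / b) := by ring
      omega
    have h6 : ((a * d : ℕ) : ℝ) / ((k / b : ℕ) : ℝ) ≤ (2 * a * b : ℝ) * ((d : ℝ) / k) := by
      rw [← mul_div_assoc, div_le_div_iff₀ hkbr hk0]
      have h5r : (k : ℝ) ≤ 2 * b * ((k / b : ℕ) : ℝ) := by exact_mod_cast h5
      push_cast
      have h8 : (0 : ℝ) ≤ a * d := by positivity
      nlinarith [mul_le_mul_of_nonneg_left h5r h8]
    calc _ ≤ C' * vA (a * d) (k / b) := h3
      _ ≤ C' * (C * (((a * d : ℕ) : ℝ) / ((k / b : ℕ) : ℝ)) ^ e) :=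
          mul_le_mul_of_nonneg_left h4 hC'.le
      _ ≤ C' * (C * ((2 * a * b : ℝ) ^ e * ((d : ℝ) / k) ^ e)) := by
          rw [← Real.mul_rpow (by positivity) hq0.le]
          gcongr
      _ = C' * (C * (2 * a * b : ℝ) ^ e) * ((d : ℝ) / k) ^ e := by ring
      _ ≤ A * ((d : ℝ) / k) ^ e := by
          apply mul_le_mul_of_nonneg_right _ hX
          rw [hA]
          linarith
  · refine (Pr_le_one (fun _ => by norm_num) _ _).trans ?_
    have hk : k ≤ M * d := by
      by_contra hcon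
      push Not at hcon
      apply hbig
      have e1 : M * d = m * d + b * (a * d) + d := by rw [hM]; ring
      refine ⟨by omega, ?_⟩
      rw [Nat.le_div_iff_mul_le (by omega), Nat.mul_comm]
      omega
    have h1 : 1 ≤ M * ((d : ℝ) / k) := by
      rw [← mul_div_assoc, one_le_div hk0]
      exact_mod_cast hk
    have h2 : 1 ≤ (M : ℝ) ^ e * ((d : ℝ) / k) ^ e := by
      rw [← Real.mul_rpow hM0.le hq0.le]
      exact Real.one_le_rpow h1 he0.le
    refine h2.trans (mul_le_mul_of_nonneg_right ?_ hX)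
    rw [hA]
    have : 0 ≤ C' * (C * (2 * a * b : ℝ) ^ e) := by positivity
    linarith

end Pool.Agent.W737.KI
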